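import Mathlib

set_option autoImplicit false

namespace Pool.Agent.Results.MP_6bfc9e_al.SemiartinianPart

universe u v

/-- Every endomorphism of every submodule of `M` extends to an endomorphism of `M`. -/
def WeaklyInjective (R : Type u) [Ring R] (M : Type v) [AddCommGroup M] [Module R M] : Prop :=
  ∀ (N : Submodule R M) (f : N →ₗ[R] N), ∃ g : M →ₗ[R] M, ∀ x : N, g (x : M) = ((f x : N) : M)

/-- Every homomorphism from a submodule of `M` to `M` extends to an endomorphism of `M`. -/
def QuasiInjective (R : Type u) [Ring R] (M : Type v) [AddCommGroup M] [Module R M] : Prop :=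
  ∀ (N : Submodule R M) (f : N →ₗ[R] M), ∃ g : M →ₗ[R] M, ∀ x : N, g (x : M) = f x

/-- Every nonzero quotient of `M` has a simple submodule. -/
def Semiartinian (R : Type u) [Ring R] (M : Type v) [AddCommGroup M] [Module R M] : Prop :=
  ∀ G : Submodule R M, G ≠ ⊤ → ∃ S : Submodule R (M ⧸ G), IsSimpleModule R S

section aux
variable {R : Type u} [Ring R] {M : Type v} [AddCommGroup M] [Module R M]

def Good (F : Submodule R M) : Prop := ∀ h : M →ₗ.[R] M, h.domain ≤ F →
  (∀ x : h.domain, h x ∈ F) ∧ ∃ g : M →ₗ[R] M, ∀ x : h.domain, g x = h x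

theorem endo' (hw : WeaklyInjective R M) (F : Submodule R M) (h : M →ₗ.[R] M) (hF : F ≤ h.domain)
    (hh : ∀ x : h.domain, (x : M) ∈ F → h x ∈ F) :
    ∃ g : M →ₗ[R] M, ∀ x : h.domain, (x : M) ∈ F → g x = h x := by
  obtain ⟨g, hg⟩ := hw F ((h.toFun.comp (Submodule.inclusion hF)).codRestrict F
    (fun x => hh ⟨x, hF x.2⟩ x.2))
  exact ⟨g, fun x hx => hg ⟨x, hx⟩⟩

theorem exists_max (h : M →ₗ.[R] M) : ∃ H : M →ₗ.[R] M, h ≤ H ∧ ∀ K, H ≤ K → K ≤ H := by
  obtain ⟨H, h1, h2⟩ := zorn_le_nonempty₀ (Set.univ : Set (M →ₗ.[R] M)) (by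
    intro c _ hc y hy
    exact ⟨LinearPMap.sSup c hc.directedOn, trivial, fun z hz => LinearPMap.le_sSup _ hz⟩) h trivial
  exact ⟨H, h1, fun K hK => h2.2 trivial hK⟩

theorem max_dom (H : M →ₗ.[R] M) (hH : ∀ K, H ≤ K → K ≤ H) (F : Submodule R M) (hF : Good F) :
    F ≤ H.domain ∧ ∀ x : H.domain, (x : M) ∈ F → H x ∈ F := by
  obtain ⟨ha, g, hg⟩ := hF (H.domRestrict F) inf_le_left
  have hval : ∀ x : H.domain, ∀ hx : (x : M) ∈ F, (H.domRestrict F) ⟨x, ⟨hx, x.2⟩⟩ = H x := by
    intro x hx
    exact LinearPMap.domRestrict_apply rfl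
  refine ⟨?_, ?_⟩
  · let k : M →ₗ.[R] M := ⟨F, g.comp F.subtype⟩
    have hcompat : ∀ (x : H.domain) (y : k.domain), (x : M) = y → H x = k y := by
      intro x y hxy
      have hx : (x : M) ∈ F := by rw [hxy]; exact y.2
      have h1 := hg ⟨x, ⟨hx, x.2⟩⟩
      rw [hval x hx] at h1
      show H x = g y
      rw [← h1, ← hxy]
    have h2 := hH (H.sup k hcompat) (LinearPMap.left_le_sup H k hcompat)
    exact (LinearPMap.right_le_sup H k hcompat).1.trans h2.1
  · intro x hx
    have := ha ⟨x, ⟨hx, x.2⟩⟩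
    rw [hval x hx] at this
    exact this

theorem good_sSup (hw : WeaklyInjective R M) (c : Set (Submodule R M)) (hc : ∀ F ∈ c, Good F) :
    Good (sSup c) := by
  intro h hh
  obtain ⟨H, hle, hH⟩ := exists_max h
  have hdom : sSup c ≤ H.domain := sSup_le fun F hF => (max_dom H hH F (hc F hF)).1
  have hP : sSup c ≤ ((sSup c).comap H.toFun).map H.domain.subtype := by
    refine sSup_le fun F hF => ?_
    intro x hx
    obtain ⟨h1, h2⟩ := max_dom H hH F (hc F hF)
    exact ⟨⟨x, h1 hx⟩, (le_sSup hF : F ≤ sSup c) (h2 ⟨x, h1 hx⟩ hx), rfl⟩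
  have hinv : ∀ x : H.domain, (x : M) ∈ sSup c → H x ∈ sSup c := by
    intro x hx
    obtain ⟨y, hy, hyx⟩ := hP hx
    have : y = x := Subtype.ext hyx
    rw [← this]
    exact hy
  have hval : ∀ x : h.domain, h x = H ⟨x, hle.1 x.2⟩ := fun x => hle.2 rfl
  refine ⟨?_, ?_⟩
  · intro x
    rw [hval x]
    exact hinv _ (hh x.2)
  · obtain ⟨g, hg⟩ := endo' hw (sSup c) H hdom hinv
    exact ⟨g, fun x => by rw [hval x]; exact hg ⟨x, hle.1 x.2⟩ (hh x.2)⟩

/-- sum of all semisimple submodules -/
def soc (R : Type u) [Ring R] (X : Type v) [AddCommGroup X] [Module R X] : Submodule R X :=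
  sSup {N : Submodule R X | IsSemisimpleModule R N}

theorem soc_ss (X : Type v) [AddCommGroup X] [Module R X] : IsSemisimpleModule R (soc R X) := by
  have := isSemisimpleModule_biSup_of_isSemisimpleModule_submodule
    (s := {N : Submodule R X | IsSemisimpleModule R N}) (p := id) (fun i hi => hi)
  rw [soc, sSup_eq_iSup]
  exact this

theorem le_soc {X : Type v} [AddCommGroup X] [Module R X] (N : Submodule R X)
    (h : IsSemisimpleModule R N) : N ≤ soc R X := le_sSup h

theorem ss_of_le {X : Type v} [AddCommGroup X] [Module R X] (N : Submodule R X)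
    (h : N ≤ soc R X) : IsSemisimpleModule R N := by
  haveI := soc_ss (R := R) X
  exact IsSemisimpleModule.of_injective (Submodule.inclusion h) (Submodule.inclusion_injective h)

theorem ss_range {D : Type v} [AddCommGroup D] [Module R D] {X Y : Type v} [AddCommGroup X] [Module R X]
    [AddCommGroup Y] [Module R Y] (φ : D →ₗ[R] X) (ψ : D →ₗ[R] Y) (hk : LinearMap.ker φ ≤ LinearMap.ker ψ)
    (hφ : IsSemisimpleModule R (LinearMap.range φ)) : IsSemisimpleModule R (LinearMap.range ψ) := by
  haveI : IsSemisimpleModule R (D ⧸ LinearMap.ker φ) :=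
    IsSemisimpleModule.of_injective φ.quotKerEquivRange.toLinearMap φ.quotKerEquivRange.injective
  let k : (D ⧸ LinearMap.ker φ) →ₗ[R] LinearMap.range ψ :=
    (LinearMap.ker φ).liftQ ψ.rangeRestrict (by
      intro x hx
      rw [LinearMap.mem_ker]
      exact Subtype.ext (LinearMap.mem_ker.1 (hk hx)))
  refine IsSemisimpleModule.of_surjective k ?_
  rintro ⟨_, x, rfl⟩
  exact ⟨Submodule.Quotient.mk x, rfl⟩

theorem good_soc (hw : WeaklyInjective R M) : Good (soc R M) := by
  intro h hh
  haveI := soc_ss (R := R) M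
  have hss := ss_of_le h.domain hh
  have hr : ∀ x : h.domain, h x ∈ soc R M := by
    intro x
    haveI := hss
    exact le_soc (LinearMap.range h.toFun) (IsSemisimpleModule.range h.toFun) ⟨x, rfl⟩
  refine ⟨hr, ?_⟩
  obtain ⟨k, hk⟩ := IsSemisimpleModule.extension_property (Submodule.inclusion hh)
    (Submodule.inclusion_injective hh) (h.toFun.codRestrict (soc R M) hr)
  obtain ⟨g, hg⟩ := hw (soc R M) k
  refine ⟨g, fun x => ?_⟩
  have h1 := hg (Submodule.inclusion hh x)
  have h2 := congrArg Subtype.val (LinearMap.congr_fun hk x)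
  exact h1.trans h2

theorem good_step (hw : WeaklyInjective R M) (G : Submodule R M) (hG : Good G) (hs : soc R M ≤ G) :
    Good ((soc R (M ⧸ G)).comap G.mkQ) := by
  intro h hh
  obtain ⟨ha, g, hg⟩ := hG (h.domRestrict G) inf_le_left
  have hval : ∀ x : h.domain, ∀ hx : (x : M) ∈ G, (h.domRestrict G) ⟨x, ⟨hx, x.2⟩⟩ = h x := by
    intro x hx
    exact LinearPMap.domRestrict_apply rfl
  let φ : h.domain →ₗ[R] (M ⧸ G) := G.mkQ.comp h.domain.subtype
  have hφ : IsSemisimpleModule R (LinearMap.range φ) := by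
    apply ss_of_le
    rintro _ ⟨x, rfl⟩
    exact hh x.2
  have hker : ∀ x : h.domain, x ∈ LinearMap.ker φ → (x : M) ∈ G := by
    intro x hx
    exact (Submodule.Quotient.mk_eq_zero G).1 (LinearMap.mem_ker.1 hx)
  refine ⟨?_, ?_⟩
  · intro x
    have h1 : IsSemisimpleModule R (LinearMap.range (G.mkQ.comp h.toFun)) := by
      apply ss_range φ _ _ hφ
      intro y hy
      have h2 := ha ⟨y, ⟨hker y hy, y.2⟩⟩
      rw [hval y (hker y hy)] at h2
      rw [LinearMap.mem_ker]
      exact (Submodule.Quotient.mk_eq_zero G).2 h2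
    exact le_soc _ h1 ⟨x, rfl⟩
  · let ψ : h.domain →ₗ[R] M := h.toFun - g.comp h.domain.subtype
    have hψ0 : ∀ x : h.domain, (x : M) ∈ G → ψ x = 0 := by
      intro x hx
      have h1 := hg ⟨x, ⟨hx, x.2⟩⟩
      rw [hval x hx] at h1
      show h x - g x = 0
      rw [← h1, sub_self]
    have hψ : IsSemisimpleModule R (LinearMap.range ψ) :=
      ss_range φ ψ (fun y hy => LinearMap.mem_ker.2 (hψ0 y (hker y hy))) hφ
    have hψG : ∀ x, ψ x ∈ G := fun x => hs (le_soc _ hψ ⟨x, rfl⟩)
    let p : M →ₗ.[R] M := ⟨h.domain, ψ⟩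
    let z : M →ₗ.[R] M := ⟨G, 0⟩
    have hcompat : ∀ (x : p.domain) (y : z.domain), (x : M) = y → p x = z y := by
      intro x y hxy
      exact hψ0 x (by rw [hxy]; exact y.2)
    have hdom : (p.sup z hcompat).domain = h.domain ⊔ G := LinearPMap.domain_sup p z hcompat
    have hval2 : ∀ (x : h.domain) (y : G) (w : (p.sup z hcompat).domain), (x : M) + y = w →
        (p.sup z hcompat) w = ψ x := by
      intro x y w hw'
      rw [LinearPMap.sup_apply hcompat x y w hw']
      show ψ x + 0 = ψ x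
      rw [add_zero]
    obtain ⟨g2, hg2⟩ := endo' hw (p.sup z hcompat).domain (p.sup z hcompat) le_rfl (by
      intro w _
      obtain ⟨x, hx, y, hy, hxy⟩ := Submodule.mem_sup.1 (hdom ▸ w.2 : (w : M) ∈ h.domain ⊔ G)
      rw [hval2 ⟨x, hx⟩ ⟨y, hy⟩ w hxy, hdom]
      exact Submodule.mem_sup_right (hψG _))
    refine ⟨g + g2, fun x => ?_⟩
    have hxw : (x : M) ∈ (p.sup z hcompat).domain := by
      rw [hdom]; exact Submodule.mem_sup_left x.2
    have h1 := hg2 ⟨x, hxw⟩ hxw
    rw [hval2 x 0 ⟨x, hxw⟩ (by simp)] at h1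
    rw [LinearMap.add_apply, h1]
    show g x + (h x - g x) = h x
    abel

end aux

/-- In a weakly injective module (no condition on the socle), every homomorphism from a semiartinian
submodule `N` to `M` extends to `M`; hence a weakly injective semiartinian module is quasi-injective. -/
theorem result : ∀ (R : Type u) [Ring R] (M : Type v) [AddCommGroup M] [Module R M],
    WeaklyInjective R M →
      (∀ N : Submodule R M, Semiartinian R N → ∀ f : N →ₗ[R] M,
        ∃ g : M →ₗ[R] M, ∀ x : N, g (x : M) = f x) ∧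
      (Semiartinian R M → QuasiInjective R M) := by
  intro R _ M _ _ hw
  set G : Submodule R M := sSup {F | Good F} with hGdef
  have hG : Good G := good_sSup hw _ (fun F hF => hF)
  have hs : soc R M ≤ G := le_sSup (good_soc hw)
  have h1 : (soc R (M ⧸ G)).comap G.mkQ ≤ G := le_sSup (good_step hw G hG hs)
  have hno : ∀ S : Submodule R (M ⧸ G), ¬ IsSimpleModule R S := by
    intro S hS
    have h2 : S ≤ soc R (M ⧸ G) := le_soc S (by haveI := hS; infer_instance)
    have h3 : S = ⊥ := by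
      rw [eq_bot_iff]
      intro s hs'
      obtain ⟨m, rfl⟩ := Submodule.mkQ_surjective G s
      have : m ∈ G := h1 (h2 hs')
      exact (Submodule.Quotient.mk_eq_zero G).2 this
    haveI := hS
    have h4 := IsSimpleModule.nontrivial R S
    rw [Submodule.nontrivial_iff_ne_bot] at h4
    exact h4 h3
  have hle : ∀ N : Submodule R M, Semiartinian R N → N ≤ G := by
    intro N hN
    by_contra hne
    have hG' : G.comap N.subtype ≠ ⊤ := by
      intro h
      apply hne
      intro x hx
      have : (⟨x, hx⟩ : N) ∈ G.comap N.subtype := by rw [h]; trivial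
      exact this
    obtain ⟨S, hS⟩ := hN _ hG'
    let k : (N ⧸ G.comap N.subtype) →ₗ[R] (M ⧸ G) := Submodule.mapQ _ G N.subtype le_rfl
    have hk : Function.Injective k := by
      rw [← LinearMap.ker_eq_bot, Submodule.ker_mapQ]
      simp
    apply hno (S.map k)
    haveI := hS
    exact IsSimpleModule.congr (Submodule.equivMapOfInjective k hk S).symm
  refine ⟨?_, ?_⟩
  · intro N hN f
    obtain ⟨_, g, hg⟩ := hG ⟨N, f⟩ (hle N hN)
    exact ⟨g, hg⟩
  · intro hsa
    have htop : G = ⊤ := by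
      by_contra hne
      obtain ⟨S, hS⟩ := hsa G hne
      exact hno S hS
    intro N f
    obtain ⟨_, g, hg⟩ := hG ⟨N, f⟩ (by rw [htop]; exact le_top)
    exact ⟨g, hg⟩

end Pool.Agent.Results.MP_6bfc9e_al.SemiartinianPart
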